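import Pool.Agent.V1171.MV.Per

set_option autoImplicit false

namespace Pool.Agent.Results.MP_e4fca8_an.BoundedVariationUnbounded

open MeasureTheory FourierTransform SchwartzMap
open scoped ENNReal NNReal

/-- `𝒯 ⊆ ℒ(X,Y)` is R-bounded: `E‖∑ ε_n T_n x_n‖ ≤ C E‖∑ ε_n x_n‖`, uniformly over finite families.
The `2^N` choices of signs are indexed by the subsets `u` of `{0,…,N-1}` (`ε_n = 1` for `n ∈ u`,
`ε_n = -1` otherwise); both expectations are multiplied by `2^N`. -/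
def RBounded {X Y : Type*} [NormedAddCommGroup X] [NormedSpace ℂ X] [NormedAddCommGroup Y]
    [NormedSpace ℂ Y] (𝒯 : Set (X →L[ℂ] Y)) : Prop :=
  ∃ C : ℝ, ∀ (N : ℕ) (T : ℕ → X →L[ℂ] Y) (x : ℕ → X), (∀ n < N, T n ∈ 𝒯) →
    ∑ u ∈ (Finset.range N).powerset,
        ‖∑ n ∈ Finset.range N, (if n ∈ u then (1:ℂ) else -1) • T n (x n)‖ ≤
      C * ∑ u ∈ (Finset.range N).powerset,
        ‖∑ n ∈ Finset.range N, (if n ∈ u then (1:ℂ) else -1) • x n‖

/-- The dyadic intervals `±[2^k, 2^{k+1})`, `k ∈ ℤ`. -/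
def IsDyadic (J : Set ℝ) : Prop :=
  ∃ k : ℤ, J = Set.Ico ((2:ℝ) ^ k) ((2:ℝ) ^ (k + 1)) ∨
    J = {ξ : ℝ | -ξ ∈ Set.Ico ((2:ℝ) ^ k) ((2:ℝ) ^ (k + 1))}

/-- `[g]_{V^s(J;E)} ≤ C`. -/
def VarBounded {E : Type*} [NormedAddCommGroup E] (s C : ℝ) (J : Set ℝ) (g : ℝ → E) : Prop :=
  ∀ (N : ℕ) (t : ℕ → ℝ), (∀ i ≤ N, t i ∈ J) → (∀ i < N, t i < t (i + 1)) →
    (∑ i ∈ Finset.range N, ‖g (t (i + 1)) - g (t i)‖ ^ s) ^ (1 / s) ≤ C

/-- `T_m f = 𝓕⁻¹ (m · 𝓕 f)` for a Schwartz function `f`. -/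
noncomputable def multOp {X Y : Type*} [NormedAddCommGroup X] [NormedSpace ℂ X]
    [NormedAddCommGroup Y] [NormedSpace ℂ Y] (m : ℝ → X →L[ℂ] Y) (f : 𝓢(ℝ, X)) : ℝ → Y :=
  𝓕⁻ (fun ξ : ℝ => m ξ (𝓕 (f : ℝ → X) ξ))

/-- `T_m` is bounded from `L^p(ℝ;X)` to `L^p(ℝ;Y)`: `‖T_m f‖_p ≤ C ‖f‖_p` for Schwartz `f`. -/
def MultBounded {X Y : Type*} [NormedAddCommGroup X] [NormedSpace ℂ X]
    [NormedAddCommGroup Y] [NormedSpace ℂ Y] (p : ℝ≥0∞) (m : ℝ → X →L[ℂ] Y) : Prop :=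
  ∃ C : ℝ≥0, ∀ f : 𝓢(ℝ, X), eLpNorm (multOp m f) p volume ≤ C * eLpNorm f p volume

/-- The hypotheses of Q1 on the symbol `m`: strongly measurable, R-bounded range, and
`sup_J [m|_J]_{V^s(J)} < ∞` over the dyadic intervals (with one constant for all `s ≥ 1`). -/
def Hyp {X Y : Type*} [NormedAddCommGroup X] [NormedSpace ℂ X]
    [NormedAddCommGroup Y] [NormedSpace ℂ Y] (m : ℝ → X →L[ℂ] Y) : Prop :=
  StronglyMeasurable m ∧ RBounded (Set.range m) ∧
    ∃ C : ℝ, ∀ s : ℝ, 1 ≤ s → ∀ J : Set ℝ, IsDyadic J → VarBounded s C J m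

/-- The exponent `4/3`. -/
noncomputable abbrev q43 : ℝ≥0∞ := 4 / 3

instance fact43 : Fact (1 ≤ q43) := V1171.MV.fact43

/-- The Banach space `ℓ^{4/3}` of complex sequences. -/
abbrev L43 : Type := lp (fun _ : ℕ => ℂ) q43

noncomputable instance : NormedAddCommGroup L43 := inferInstance

noncomputable instance : NormedSpace ℂ L43 := inferInstance

theorem eLp4 {E : Type*} [NormedAddCommGroup E] (F : ℝ → E) :
    (eLpNorm F 4 volume) ^ 4 = ∫⁻ x, ENNReal.ofReal (‖F x‖ ^ 4) := by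
  rw [eLpNorm_eq_lintegral_rpow_enorm_toReal (by norm_num) (by norm_num)]
  have h4 : (4:ℝ≥0∞).toReal = 4 := by norm_num
  rw [h4, ← ENNReal.rpow_natCast, ← ENNReal.rpow_mul]
  have h5 : (1 / (4:ℝ)) * ((4:ℕ) : ℝ) = 1 := by norm_num
  rw [h5, ENNReal.rpow_one]
  apply lintegral_congr
  intro x
  rw [← ofReal_norm, ENNReal.ofReal_rpow_of_nonneg (norm_nonneg _) (by norm_num)]
  congr 1
  rw [← Real.rpow_natCast]
  norm_num

theorem unbounded : ¬ MultBounded 4 V1171.MV.mop := by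
  rintro ⟨C, hC⟩
  apply V1171.MV.incompatible ((C:ℝ) ^ 4) (by positivity)
  intro L
  have h1 := hC (V1171.MV.fL L)
  have h2 : (eLpNorm (multOp V1171.MV.mop (V1171.MV.fL L)) 4 volume) ^ 4 ≤
      (C * eLpNorm (V1171.MV.fL L) 4 volume) ^ 4 := by gcongr
  rw [mul_pow, eLp4, eLp4] at h2
  have h3 : ENNReal.ofReal ((C:ℝ) ^ 4) = (C : ℝ≥0∞) ^ 4 := by
    rw [ENNReal.ofReal_pow C.coe_nonneg, ENNReal.ofReal_coe_nnreal]
  rw [h3]
  exact h2

theorem rbounded : RBounded (Set.range V1171.MV.mop) := by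
  refine ⟨8, fun N T x hT => ?_⟩
  have h1 : ∀ n : ℕ, ∃ ξ : ℝ, n < N → T n = V1171.MV.mop ξ := by
    intro n
    by_cases h : n < N
    · obtain ⟨ξ, hξ⟩ := hT n h
      exact ⟨ξ, fun _ => hξ.symm⟩
    · exact ⟨0, fun h' => absurd h' h⟩
  choose ξ hξ using h1
  have h2 := V1171.MV.rb_main N (fun n => Nat.log 2 ⌊ξ n + 1 / 2⌋₊)
    (fun n => ((V1171.MV.mu ⌊ξ n + 1 / 2⌋₊ : ℝ) : ℂ)) x (by
      intro n
      rw [Complex.norm_real]
      exact V1171.MV.mu_abs_le _)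
  have e1 : ∀ u : Finset ℕ, ∑ n ∈ Finset.range N, (if n ∈ u then (1:ℂ) else -1) • T n (x n) =
      ∑ n ∈ Finset.range N, (lp.single (4 / 3) (Nat.log 2 ⌊ξ n + 1 / 2⌋₊)
        ((if n ∈ u then (1:ℂ) else -1) * (x n * ((V1171.MV.mu ⌊ξ n + 1 / 2⌋₊ : ℝ) : ℂ))) :
          V1171.MV.Y43) := by
    intro u
    apply Finset.sum_congr rfl
    intro n hn
    rw [hξ n (Finset.mem_range.mp hn), V1171.MV.mop_apply]
    unfold V1171.MV.Mv
    rw [← lp.single_smul, ← lp.single_smul]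
    rfl
  have e2 : ∀ u : Finset ℕ, ∑ n ∈ Finset.range N, (if n ∈ u then (1:ℂ) else -1) • x n =
      H75R3.sg (Finset.range N) u x := fun u => rfl
  simp_rw [e1, e2]
  exact h2

theorem strongly : StronglyMeasurable V1171.MV.mop := by
  have h1 : Measurable (fun ξ : ℝ => ⌊ξ + 1 / 2⌋₊) :=
    Nat.measurable_floor.comp (measurable_id.add_const _)
  have h2 : StronglyMeasurable (fun n : ℕ =>
      (ContinuousLinearMap.toSpanSingleton ℂ (V1171.MV.Mv n) : ℂ →L[ℂ] V1171.MV.Y43)) :=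
    StronglyMeasurable.of_discrete
  exact h2.comp_measurable h1

theorem norm_mop_sub (ξ η : ℝ) : ‖V1171.MV.mop ξ - V1171.MV.mop η‖ =
    ‖V1171.MV.Mv ⌊ξ + 1 / 2⌋₊ - V1171.MV.Mv ⌊η + 1 / 2⌋₊‖ := by
  have : V1171.MV.mop ξ - V1171.MV.mop η = ContinuousLinearMap.toSpanSingleton ℂ
      (V1171.MV.Mv ⌊ξ + 1 / 2⌋₊ - V1171.MV.Mv ⌊η + 1 / 2⌋₊) := by
    ext
    simp [V1171.MV.mop]
  rw [this, ContinuousLinearMap.norm_toSpanSingleton]

theorem small_zero (n : ℕ) (h : n ≤ 1) : V1171.MV.Mv n = 0 := by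
  have h0 : V1171.MV.mu n = 0 := by
    interval_cases n
    · exact V1171.MV.mu_zero
    · have := V1171.MV.mu_pow 0
      simpa using this
  unfold V1171.MV.Mv
  rw [h0]
  simp

theorem variation (s : ℝ) (hs : 1 ≤ s) (J : Set ℝ) (hJ : IsDyadic J) :
    VarBounded s 2 J V1171.MV.mop := by
  intro N t ht hmono
  apply V1171.MV.sum_rpow_le (fun i => ‖V1171.MV.mop (t (i + 1)) - V1171.MV.mop (t i)‖)
    (fun i => norm_nonneg _) s hs
  simp_rw [norm_mop_sub]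
  have hz : (∀ i ≤ N, ⌊t i + 1 / 2⌋₊ ≤ 1) →
      ∑ i ∈ Finset.range N, ‖V1171.MV.Mv ⌊t (i + 1) + 1 / 2⌋₊ - V1171.MV.Mv ⌊t i + 1 / 2⌋₊‖ ≤ 2 := by
    intro h
    rw [Finset.sum_eq_zero]
    · norm_num
    · intro i hi
      rw [Finset.mem_range] at hi
      rw [small_zero _ (h (i + 1) (by omega)), small_zero _ (h i (by omega))]
      simp
  obtain ⟨k, hk | hk⟩ := hJ
  · rcases lt_or_ge k 0 with hk0 | hk0
    · apply hz
      intro i hi
      have h1 := ht i hi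
      rw [hk] at h1
      have h2 : ((2:ℝ)) ^ (k + 1) ≤ 1 := zpow_le_one_of_nonpos₀ (by norm_num) (by omega)
      have h3 : t i + 1 / 2 < ((2 : ℕ) : ℝ) := by push_cast; linarith [h1.2]
      have h4 : 0 ≤ t i + 1 / 2 := by
        have : (0:ℝ) < (2:ℝ) ^ k := by positivity
        linarith [h1.1]
      have := (Nat.floor_lt h4).mpr h3
      omega
    · obtain ⟨q, rfl⟩ := Int.eq_ofNat_of_zero_le hk0
      have h1 : ∀ i ≤ N, (2:ℝ) ^ q ≤ t i ∧ t i < 2 ^ (q + 1) := by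
        intro i hi
        have h2 := ht i hi
        rw [hk] at h2
        refine ⟨?_, ?_⟩
        · have := h2.1
          rw [zpow_natCast] at this
          exact this
        · have := h2.2
          have e : ((q : ℤ) + 1) = ((q + 1 : ℕ) : ℤ) := by push_cast; ring
          rw [e, zpow_natCast] at this
          exact this
      have hlow : 2 ^ q ≤ ⌊t 0 + 1 / 2⌋₊ := by
        apply Nat.le_floor
        push_cast
        linarith [(h1 0 (by omega)).1]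
      have hup : ⌊t N + 1 / 2⌋₊ ≤ 2 ^ (q + 1) := by
        have h4 : 0 ≤ t N + 1 / 2 := by
          have : (0:ℝ) < (2:ℝ) ^ q := by positivity
          linarith [(h1 N le_rfl).1]
        have h3 : ⌊t N + 1 / 2⌋₊ < 2 ^ (q + 1) + 1 := by
          rw [Nat.floor_lt h4]
          push_cast
          linarith [(h1 N le_rfl).2]
        omega
      have h5 := (V1171.MV.var_sum (fun i => ⌊t i + 1 / 2⌋₊) N (by
        intro i hi
        apply Nat.floor_le_floor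
        linarith [hmono i hi])).2
      refine h5.trans ?_
      refine le_trans ?_ (V1171.MV.diff_sum q)
      apply Finset.sum_le_sum_of_subset_of_nonneg
      · exact Finset.Ico_subset_Ico hlow hup
      · intro _ _ _
        exact norm_nonneg _
  · apply hz
    intro i hi
    have h1 := ht i hi
    rw [hk] at h1
    have h2 : (0:ℝ) < (2:ℝ) ^ k := by positivity
    have h3 : (2:ℝ) ^ k ≤ -(t i) := h1.1
    have h4 : t i + 1 / 2 < 1 := by linarith
    have : ⌊t i + 1 / 2⌋₊ = 0 := Nat.floor_eq_zero.mpr h4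
    omega

/-- **Negative answer to Q1.**  With `X = ℂ` and `Y = ℓ^{4/3}` there is a strongly measurable
operator-valued symbol with R-bounded range and uniformly bounded `V^s` seminorms on all dyadic
intervals, for every `s ≥ 1` simultaneously, whose multiplier is unbounded on `L^4`. -/
theorem result : ∃ m : ℝ → ℂ →L[ℂ] L43, Hyp m ∧ ¬ MultBounded 4 m :=
  ⟨V1171.MV.mop, ⟨strongly, rbounded, ⟨2, variation⟩⟩, unbounded⟩

end Pool.Agent.Results.MP_e4fca8_an.BoundedVariationUnbounded
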